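import Pool.Agent.Lib_MP_e457e7_g3.Final
import Pool.Agent.Lib_MP_e457e7_g3.Loc

/-!
# Reduction of `S12075` to the statement `(B*)`

`(B*)`: a digraph with in-degrees `4` such that the number of root arcs entering `X` plus the sum over
`u ∉ X` of `min 2 (number of arcs from u into X)` is at least `4` for all nonempty `X` has a partition
of its arcs into two flat (rooted 2-vertex-connected) classes with in-degrees `2`.

The reduction replaces every vertex by two core vertices and one exit vertex for every out-arc.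
-/

set_option autoImplicit false
set_option linter.unusedSectionVars false

namespace BStarRed
open Finset

/-- the number `ρ*(X)` -/
def rhoS {W E : Type} [Fintype W] [DecidableEq W] [Fintype E] (h : E → W) (t : E → Option W)
    (X : Finset W) : ℕ :=
  #{e | h e ∈ X ∧ t e = none} + ∑ u ∈ Xᶜ, min 2 #{e | h e ∈ X ∧ t e = some u}

/-- flat arc sets: rooted 2-vertex-connected, every root arc counts as its own tail -/
def Flat {W E : Type} [DecidableEq W] (h : E → W) (t : E → Option W) (F : Finset E) : Prop :=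
  ∀ X : Finset W, X.Nonempty → 2 ≤ #{e ∈ F | h e ∈ X ∧ ∀ u ∈ X, t e ≠ some u} ∧
    ∀ w ∉ X, 1 ≤ #{e ∈ F | h e ∈ X ∧ t e ≠ some w ∧ ∀ u ∈ X, t e ≠ some u}

/-- the statement `(B*)` -/
def Bstar : Prop := ∀ (W E : Type) [Fintype W] [DecidableEq W] [Fintype E] [DecidableEq E]
  (h : E → W) (t : E → Option W), (∀ w, #{e | h e = w} = 4) →
  (∀ X : Finset W, X.Nonempty → 4 ≤ rhoS h t X) →
  ∃ F : Finset E, (∀ w, #{e ∈ F | h e = w} = 2) ∧ (∀ w, #{e ∈ Fᶜ | h e = w} = 2) ∧
    Flat h t F ∧ Flat h t Fᶜ

variable {W E : Type} [Fintype W] [DecidableEq W] [Fintype E] [DecidableEq E]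

/-- heads in the blown up digraph -/
def hh (h : E → W) (s : E → Bool) : E ⊕ ((W × Bool) × Bool) ⊕ (E × Bool × Bool) → (W × Bool) ⊕ E
  | .inl e => .inl (h e, s e)
  | .inr (.inl p) => .inl p.1
  | .inr (.inr q) => .inr q.1

/-- tails in the blown up digraph -/
def tt (t : E → Option W) : E ⊕ ((W × Bool) × Bool) ⊕ (E × Bool × Bool) →
    Option ((W × Bool) ⊕ E)
  | .inl e => some (.inr e)
  | .inr (.inl p) => some (.inl (p.1.1, !p.1.2))
  | .inr (.inr q) => (t q.1).map fun v => .inl (v, q.2.1)

theorem exists_side (h : E → W) (P : E → E) (hdeg : ∀ w, #{e | h e = w} = 4)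
    (hPP : ∀ e, P (P e) = e) (hPne : ∀ e, P e ≠ e) (hPh : ∀ e, h (P e) = h e) :
    ∃ s : E → Bool, (∀ e, s (P e) = s e) ∧ ∀ v b, #{e | h e = v ∧ s e = b} = 2 := by
  have hne : ∀ w, ∃ e, h e = w := by
    intro w
    have : (univ.filter fun e => h e = w).Nonempty := by
      rw [← card_pos, hdeg w]; norm_num
    obtain ⟨e, he⟩ := this
    exact ⟨e, (mem_filter.1 he).2⟩
  choose g hg using hne
  refine ⟨fun e => decide (e = g (h e) ∨ e = P (g (h e))), ?_, ?_⟩
  · intro e
    have hP2 : ∀ a b, P a = b → a = P b := fun a b hab => by rw [← hab, hPP]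
    simp only [hPh, decide_eq_decide]
    constructor
    · rintro (h1 | h1)
      · exact Or.inr (hP2 _ _ h1)
      · left
        have h2 := hP2 _ _ h1
        rwa [hPP] at h2
    · rintro (h1 | h1)
      · right; exact congrArg P h1
      · left
        have h2 := hP2 _ _ h1.symm
        exact h2.symm
  · intro v
    have htrue : (univ.filter fun e => h e = v ∧ decide (e = g (h e) ∨ e = P (g (h e))) = true) =
        {g v, P (g v)} := by
      ext e
      simp only [mem_filter, mem_univ, true_and, decide_eq_true_eq, mem_insert, mem_singleton]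
      constructor
      · rintro ⟨h1, h2⟩
        rw [h1] at h2
        exact h2
      · rintro (rfl | rfl)
        · exact ⟨hg v, Or.inl (by rw [hg v])⟩
        · refine ⟨by rw [hPh, hg], Or.inr ?_⟩
          rw [hPh, hg]
    have h2 : #{e | h e = v ∧ decide (e = g (h e) ∨ e = P (g (h e))) = true} = 2 := by
      rw [htrue, card_pair (hPne _).symm]
    have h3 := card_filter_add_card_filter_not (s := univ.filter fun e => h e = v)
      (fun e => decide (e = g (h e) ∨ e = P (g (h e))) = true)
    rw [filter_filter, filter_filter, hdeg v, h2] at h3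
    intro b
    cases b
    · have h4 : (univ.filter fun e => h e = v ∧
          ¬ (decide (e = g (h e) ∨ e = P (g (h e))) = true)) =
          univ.filter fun e => h e = v ∧ decide (e = g (h e) ∨ e = P (g (h e))) = false := by
        refine filter_congr fun e _ => ?_
        simp
      rw [h4] at h3
      beta_reduce
      omega
    · exact h2

theorem indeg_blow (h : E → W) (s : E → Bool) (hs : ∀ v b, #{e | h e = v ∧ s e = b} = 2)
    (w : (W × Bool) ⊕ E) : #{a | hh h s a = w} = 4 := by
  rw [card_filter, Fintype.sum_sum_type, Fintype.sum_sum_type]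
  rcases w with ⟨v, b⟩ | e
  · simp only [hh, Sum.inl.injEq, Prod.mk.injEq, reduceCtorEq, if_false, sum_const_zero, add_zero]
    rw [← card_filter, hs v b, ← card_filter]
    have : (univ.filter fun p : (W × Bool) × Bool => p.1 = (v, b)) =
        ({((v, b), true), ((v, b), false)} : Finset _) := by
      ext ⟨p, c⟩
      simp only [mem_filter, mem_univ, true_and, mem_insert, mem_singleton, Prod.mk.injEq]
      cases c <;> simp
    rw [this, card_pair (by simp)]
  · simp only [hh, reduceCtorEq, if_false, sum_const_zero, zero_add, Sum.inr.injEq]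
    rw [← card_filter]
    have : (univ.filter fun q : E × Bool × Bool => q.1 = e) =
        ((univ : Finset (Bool × Bool)).map ⟨fun r => (e, r), fun a b hab => by simpa using hab⟩) := by
      ext ⟨a, r⟩
      simp only [mem_filter, mem_univ, true_and, mem_map, Function.Embedding.coeFn_mk,
        Prod.mk.injEq]
      constructor
      · rintro rfl; exact ⟨r, rfl, rfl⟩
      · rintro ⟨_, h1, _⟩; exact h1.symm
    rw [this, card_map]
    rfl

theorem rhoS_blow (h : E → W) (t : E → Option W) (s : E → Bool)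
    (hs : ∀ v b, #{e | h e = v ∧ s e = b} = 2)
    (hconn : ∀ X : Finset W, X.Nonempty → 4 ≤ #{e | h e ∈ X ∧ ∀ u ∈ X, t e ≠ some u})
    (X : Finset ((W × Bool) ⊕ E)) (hX : X.Nonempty) : 4 ≤ rhoS (hh h s) (tt t) X := by
  classical
  unfold rhoS
  -- an exit of a root arc
  by_cases hA : ∃ e, .inr e ∈ X ∧ t e = none
  · obtain ⟨e, he, hte⟩ := hA
    have h1 : ((univ : Finset (Bool × Bool)).map ⟨fun r => (.inr (.inr (e, r)) :
        E ⊕ ((W × Bool) × Bool) ⊕ (E × Bool × Bool)), fun a b hab => by simpa using hab⟩) ⊆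
        univ.filter (fun a => hh h s a ∈ X ∧ tt t a = none) := by
      intro a ha
      obtain ⟨r, _, rfl⟩ := mem_map.1 ha
      simp only [mem_filter, mem_univ, true_and]
      exact ⟨he, by simp [tt, hte]⟩
    have h2 := card_le_card h1
    rw [card_map] at h2
    have h3 : (univ : Finset (Bool × Bool)).card = 4 := rfl
    omega
  refine le_add_left ?_
  have hinl : ∀ u, (∃ a b, a ≠ b ∧ hh h s a ∈ X ∧ tt t a = some u ∧ hh h s b ∈ X ∧
      tt t b = some u) → min 2 #{a | hh h s a ∈ X ∧ tt t a = some u} = 2 := by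
    rintro u ⟨a, b, hab, h1, h2, h3, h4⟩
    refine min_eq_left ?_
    have : ({a, b} : Finset _) ⊆ univ.filter (fun a => hh h s a ∈ X ∧ tt t a = some u) := by
      intro c hc
      simp only [mem_insert, mem_singleton] at hc
      rcases hc with rfl | rfl
      · exact mem_filter.2 ⟨mem_univ _, h1, h2⟩
      · exact mem_filter.2 ⟨mem_univ _, h3, h4⟩
    have h5 := card_le_card this
    rwa [card_pair hab] at h5
  -- an exit without its cores
  by_cases hB : ∃ e v, .inr e ∈ X ∧ t e = some v ∧ ∀ b, .inl (v, b) ∉ X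
  · obtain ⟨e, v, he, hte, hv⟩ := hB
    have h1 : ({.inl (v, true), .inl (v, false)} : Finset ((W × Bool) ⊕ E)) ⊆ Xᶜ := by
      intro u hu
      simp only [mem_insert, mem_singleton] at hu
      rcases hu with rfl | rfl
      · exact mem_compl.2 (hv _)
      · exact mem_compl.2 (hv _)
    refine le_trans ?_ (sum_le_sum_of_subset h1)
    rw [sum_pair (by simp)]
    have h2 : ∀ b, min 2 #{a | hh h s a ∈ X ∧ tt t a = some (.inl (v, b))} = 2 := by
      intro b
      refine hinl _ ⟨.inr (.inr (e, b, true)), .inr (.inr (e, b, false)), by simp, he, ?_, he, ?_⟩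
      · simp [tt, hte]
      · simp [tt, hte]
    rw [h2 true, h2 false]
  push Not at hA hB
  -- the general case
  set S : Finset W := univ.filter (fun v => ∃ b, .inl (v, b) ∈ X) with hS
  set Pt : Finset (W × Bool) := univ.filter (fun p => .inl p ∉ X ∧ .inl (p.1, !p.2) ∈ X) with hPt
  have hSne : S.Nonempty := by
    obtain ⟨x, hx⟩ := hX
    rcases x with ⟨v, b⟩ | e
    · exact ⟨v, mem_filter.2 ⟨mem_univ _, b, hx⟩⟩
    · rcases hte : t e with _ | v
      · exact absurd hte (hA e hx)
      · obtain ⟨b, hb⟩ := hB e v hx hte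
        exact ⟨v, mem_filter.2 ⟨mem_univ _, b, hb⟩⟩
  have h4 := hconn S hSne
  set A : Finset E := univ.filter (fun e => h e ∈ S ∧ ∀ u ∈ S, t e ≠ some u) with hAdef
  have hsplit := card_filter_add_card_filter_not (s := A) (fun e => .inl (h e, s e) ∈ X)
  have hlost : (A.filter fun e => ¬ (.inl (h e, s e) ∈ X)).card ≤ 2 * Pt.card := by
    have h5 : A.filter (fun e => ¬ (.inl (h e, s e) ∈ X)) ⊆
        Pt.biUnion (fun p => univ.filter (fun e => h e = p.1 ∧ s e = p.2)) := by
      intro e he
      obtain ⟨h6, h7⟩ := mem_filter.1 he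
      obtain ⟨_, h8, _⟩ := mem_filter.1 h6
      obtain ⟨_, b, hb⟩ := mem_filter.1 h8
      refine mem_biUnion.2 ⟨(h e, s e), mem_filter.2 ⟨mem_univ _, h7, ?_⟩,
        mem_filter.2 ⟨mem_univ _, rfl, rfl⟩⟩
      have h9 : b = !(s e) := by
        by_contra hcon
        have : b = s e := by
          revert hcon
          cases b <;> cases s e <;> simp
        rw [this] at hb
        exact h7 hb
      simpa [h9] using hb
    refine (card_le_card h5).trans (card_biUnion_le.trans ?_)
    rw [sum_congr rfl fun p _ => hs p.1 p.2, sum_const, smul_eq_mul, mul_comm]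
  have hmain : 2 * Pt.card + (A.filter fun e => .inl (h e, s e) ∈ X).card ≤
      ∑ u ∈ Xᶜ, min 2 #{a | hh h s a ∈ X ∧ tt t a = some u} := by
    have h5 : ∀ g : (W × Bool) ⊕ E → ℕ, ∑ u ∈ Xᶜ, g u =
        (∑ p : W × Bool, if .inl p ∈ Xᶜ then g (.inl p) else 0) +
        ∑ e : E, if .inr e ∈ Xᶜ then g (.inr e) else 0 := by
      intro g
      rw [← Fintype.sum_sum_type (fun u => if u ∈ Xᶜ then g u else 0), sum_ite_mem, univ_inter]
    rw [h5]
    refine add_le_add ?_ ?_
    · have h6 : 2 * Pt.card = ∑ p ∈ Pt, 2 := by rw [sum_const, smul_eq_mul, mul_comm]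
      rw [h6]
      refine (sum_le_sum fun p hp => ?_).trans (sum_le_sum_of_subset (subset_univ Pt))
      obtain ⟨_, h7, h8⟩ := mem_filter.1 hp
      rw [if_pos (mem_compl.2 h7)]
      refine le_of_eq (hinl _ ⟨.inr (.inl ((p.1, !p.2), true)), .inr (.inl ((p.1, !p.2), false)),
        by simp, h8, ?_, h8, ?_⟩).symm
      · simp [tt]
      · simp [tt]
    · rw [card_eq_sum_ones]
      refine (sum_le_sum fun e he => ?_).trans (sum_le_sum_of_subset (subset_univ _))
      obtain ⟨h6, h7⟩ := mem_filter.1 he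
      obtain ⟨_, h8, h9⟩ := mem_filter.1 h6
      have h10 : (.inr e : (W × Bool) ⊕ E) ∉ X := by
        intro hcon
        rcases hte : t e with _ | v
        · exact hA e hcon hte
        · obtain ⟨b, hb⟩ := hB e v hcon hte
          exact h9 v (mem_filter.2 ⟨mem_univ _, b, hb⟩) hte
      rw [if_pos (mem_compl.2 h10)]
      refine le_min (by norm_num) (card_pos.2 ⟨.inl e, ?_⟩)
      simp only [mem_filter, mem_univ, true_and]
      exact ⟨h7, rfl⟩
  omega

/-- `(B*)` implies `T(2)`. -/
theorem TK2_of_Bstar (hB : Bstar) : Pool.Agent.LibE457g.TK 2 := by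
  classical
  intro W E _ _ _ _ h t P hdeg hconn hPP hPne hPh
  obtain ⟨s, hsP, hs⟩ := exists_side h P (by simpa using hdeg) hPP hPne hPh
  obtain ⟨F', hF2, hG2, hF, hG⟩ := hB ((W × Bool) ⊕ E)
    (E ⊕ ((W × Bool) × Bool) ⊕ (E × Bool × Bool)) (hh h s) (tt t)
    (indeg_blow h s hs) (rhoS_blow h t s hs (by simpa using hconn))
  -- the two arcs at one side of a vertex
  have hpair : ∀ e e', h e' = h e → s e' = s e → e' = e ∨ e' = P e := by
    intro e e' h1 h2
    have h3 : ({e, P e} : Finset E) = univ.filter (fun x => h x = h e ∧ s x = s e) := by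
      refine eq_of_subset_of_card_le ?_ ?_
      · intro x hx
        simp only [mem_insert, mem_singleton] at hx
        rcases hx with rfl | rfl
        · simp
        · simp [hPh, hsP]
      · rw [hs, card_pair (hPne e).symm]
    have h4 : e' ∈ ({e, P e} : Finset E) := by
      rw [h3]; simp [h1, h2]
    simpa using h4
  have hone : ∀ F'' : Finset (E ⊕ ((W × Bool) × Bool) ⊕ (E × Bool × Bool)),
      Flat (hh h s) (tt t) F'' → ∀ e, (.inl e ∈ F'' ∨ .inl (P e) ∈ F'') := by
    intro F'' hF'' e
    have h1 := (hF'' {.inl (h e, s e)} (singleton_nonempty _)).2 (.inl (h e, !s e)) (by simp)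
    obtain ⟨a, ha⟩ := card_pos.1 h1
    simp only [mem_filter, mem_singleton] at ha
    obtain ⟨ha, h2, h3, _⟩ := ha
    rcases a with e' | ⟨p, c⟩ | q
    · simp only [hh, Sum.inl.injEq, Prod.mk.injEq] at h2
      rcases hpair e e' h2.1 h2.2 with rfl | rfl
      · exact Or.inl ha
      · exact Or.inr ha
    · exfalso
      simp only [hh, Sum.inl.injEq] at h2
      apply h3
      simp [tt, h2]
    · simp [hh] at h2
  refine ⟨univ.filter (fun e => .inl e ∈ F'), ?_, ?_, ?_⟩
  · intro e
    simp only [mem_filter, mem_univ, true_and]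
    constructor
    · intro h1 h2
      rcases hone _ hG e with h3 | h3
      · exact (mem_compl.1 h3) h1
      · exact (mem_compl.1 h3) h2
    · intro h1
      rcases hone _ hF e with h3 | h3
      · exact h3
      · exact absurd h3 h1
  all_goals
    intro X hX
    set X' : Finset ((W × Bool) ⊕ E) := univ.filter (fun x => match x with
      | .inl p => p.1 ∈ X
      | .inr e => ∃ v ∈ X, t e = some v) with hX'
    have hinl : ∀ p, (.inl p : (W × Bool) ⊕ E) ∈ X' ↔ p.1 ∈ X := by
      intro p; simp [hX']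
    have hinr : ∀ e, (.inr e : (W × Bool) ⊕ E) ∈ X' ↔ ∃ v ∈ X, t e = some v := by
      intro e; simp [hX']
    have hne : X'.Nonempty := by
      obtain ⟨v, hv⟩ := hX
      exact ⟨.inl (v, true), (hinl _).2 hv⟩
    have key : ∀ a, hh h s a ∈ X' → (∀ u ∈ X', tt t a ≠ some u) →
        ∃ e, a = .inl e ∧ h e ∈ X ∧ ∀ u ∈ X, t e ≠ some u := by
      intro a h1 h2
      rcases a with e | ⟨p, c⟩ | q
      · refine ⟨e, rfl, (hinl _).1 h1, fun u hu hte => ?_⟩
        exact h2 (.inr e) ((hinr e).2 ⟨u, hu, hte⟩) rfl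
      · exfalso
        exact h2 (.inl (p.1, !p.2)) ((hinl _).2 ((hinl p).1 h1)) rfl
      · exfalso
        obtain ⟨v, hv, hte⟩ := (hinr _).1 h1
        exact h2 (.inl (v, q.2.1)) ((hinl _).2 hv) (by simp [tt, hte])
  · refine (hF X' hne).1.trans ?_
    refine card_le_card_of_surjOn (fun e => .inl e) ?_
    intro a ha
    simp only [coe_filter, Set.mem_ofPred_eq] at ha
    obtain ⟨h1, h2, h3⟩ := ha
    obtain ⟨e, rfl, h4, h5⟩ := key a h2 h3
    refine ⟨e, ?_, rfl⟩
    simp only [coe_filter, Set.mem_ofPred_eq, mem_filter, mem_univ, true_and]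
    exact ⟨h1, h4, h5⟩
  · refine (hG X' hne).1.trans ?_
    refine card_le_card_of_surjOn (fun e => .inl e) ?_
    intro a ha
    simp only [coe_filter, Set.mem_ofPred_eq, mem_compl] at ha
    obtain ⟨h1, h2, h3⟩ := ha
    obtain ⟨e, rfl, h4, h5⟩ := key a h2 h3
    refine ⟨e, ?_, rfl⟩
    simp only [coe_filter, Set.mem_ofPred_eq, mem_compl, mem_filter, mem_univ, true_and]
    exact ⟨h1, h4, h5⟩

/-- `(B*)` implies the frozen statement `S12075`. -/
theorem S12075_of_Bstar (hB : Bstar) :
    ∀ (V A : Type) [Fintype V] [Fintype A] [DecidableEq V] [DecidableEq A]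
      (tail head : A → V) (r0 : V) (c : A → ℕ) (k l : ℕ)
      (IsArb : Finset A → Prop),
      (∀ T : Finset A, IsArb T ↔
          ((∀ a ∈ T, head a ≠ r0) ∧
           (∀ v : V, v ≠ r0 → ∃! a : A, a ∈ T ∧ head a = v) ∧
           (∀ v : V, Relation.ReflTransGen
              (fun x y : V => ∃ a ∈ T, tail a = x ∧ head a = y) r0 v))) →
      (∀ a : A, c a ≤ l) →
      (∃ T : Fin (k * l) → Finset A,
          (∀ i, IsArb (T i)) ∧
          ∀ a : A, (Finset.univ.filter (fun i => a ∈ T i)).card ≤ c a) →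
      ∃ B : Fin l → Fin k → Finset A,
        (∀ i j, IsArb (B i j)) ∧
        (∀ i : Fin l, ∀ j j' : Fin k, j ≠ j' → Disjoint (B i j) (B i j')) ∧
        ∀ a : A, (Finset.univ.filter
            (fun p : Fin l × Fin k => a ∈ B p.1 p.2)).card ≤ c a := by
  intro V A _ _ _ _ tail head r0 c k l IsArb hIsArb hc hT
  rcases k with _ | _ | _ | k
  · exact ⟨fun _ j => j.elim0, fun _ j => j.elim0, fun _ j => j.elim0, fun a => by simp⟩
  · obtain ⟨T, hT, hTc⟩ := hT
    refine ⟨fun i _ => T (Fin.cast (by simp) i), fun i j => hT _, ?_, ?_⟩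
    · intro i j j' hjj
      exact absurd (by ext; omega) hjj
    · intro a
      refine le_trans (le_of_eq ?_) (hTc a)
      refine card_bij (fun p _ => Fin.cast (by simp) p.1) ?_ ?_ ?_
      · intro p hp
        simpa using hp
      · intro p _ q _ hpq
        have h1 : p.1 = q.1 := by simpa [Fin.ext_iff] using hpq
        exact Prod.ext h1 (by ext; omega)
      · intro i hi
        refine ⟨(Fin.cast (by simp) i, 0), ?_, ?_⟩
        · simpa using hi
        · simp
  · exact Pool.Agent.LibE457g.q1_of_TK (TK2_of_Bstar hB) V A tail head r0 c l IsArb hIsArb hc hT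
  · exact G3.q1_of_local (Pool.Agent.LibE457g.localLemma (by omega)) V A tail head r0 c l IsArb
      hIsArb hc hT

end BStarRed
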